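import Pool.Agent.W97.KE.Stm

/-! Project KE: the local Galois group and roots of unity. -/

set_option autoImplicit false

namespace Pool.Agent.W202.KE

open Pool.Agent.W97.KE
open Pool.Agent.H901R3.MS (Place)

/-- an automorphism of the algebraic closure of a finite prime field is a power of the Frobenius
map on each element -/
theorem frob_pow (l : ℕ) [Fact l.Prime] (s : AlgebraicClosure (ZMod l) ≃+* AlgebraicClosure (ZMod l))
    (x : AlgebraicClosure (ZMod l)) : ∃ i : ℕ, s x = x ^ l ^ i := by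
  have hs : ∀ r : ZMod l, s (algebraMap (ZMod l) _ r) = algebraMap (ZMod l) _ r := by
    intro r
    have h1 : (s : AlgebraicClosure (ZMod l) →+* AlgebraicClosure (ZMod l)).comp
        (algebraMap (ZMod l) _) = algebraMap (ZMod l) _ := RingHom.ext_zmod _ _
    exact congrArg (fun f => f r) h1
  let S : AlgebraicClosure (ZMod l) ≃ₐ[ZMod l] AlgebraicClosure (ZMod l) :=
    AlgEquiv.ofRingEquiv (f := s) hs
  let F : IntermediateField (ZMod l) (AlgebraicClosure (ZMod l)) :=
    IntermediateField.adjoin (ZMod l) {x}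
  have hint : IsIntegral (ZMod l) x := Algebra.IsIntegral.isIntegral x
  have : FiniteDimensional (ZMod l) F := IntermediateField.adjoin.finiteDimensional hint
  have : Finite F := Module.finite_of_finite (ZMod l)
  have : IsGalois (ZMod l) F := inferInstance
  have hxF : x ∈ F := IntermediateField.mem_adjoin_simple_self (ZMod l) x
  obtain ⟨i, hi⟩ := (FiniteField.bijective_frobeniusAlgEquivOfAlgebraic_pow (ZMod l) F).2
    (S.restrictNormal F)
  have h2 := S.restrictNormal_commutes F ⟨x, hxF⟩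
  have h3 : ((S.restrictNormal F) ⟨x, hxF⟩ : F) = (⟨x, hxF⟩ : F) ^ l ^ (i : ℕ) := by
    rw [← hi]
    simp only [AlgEquiv.coe_pow, FiniteField.coe_frobeniusAlgEquivOfAlgebraic_iterate, ZMod.card]
  refine ⟨i, ?_⟩
  rw [h3] at h2
  have h4 : algebraMap F (AlgebraicClosure (ZMod l)) ((⟨x, hxF⟩ : F) ^ l ^ (i : ℕ)) =
      x ^ l ^ (i : ℕ) := by
    rw [map_pow]
    rfl
  rw [h4] at h2
  exact h2.symm

theorem s_roots : S_PLACE → S_ROOTS := by
  intro hP l _ τ M hM hMl
  obtain ⟨v, hv⟩ := hP l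
  obtain ⟨s, hs⟩ := hv τ
  have hA : ∀ z : AlgebraicClosure ℚ_[l], z ^ M = 1 → z ∈ v.A := by
    intro z hz
    exact v.mem_of_pow_mem hM (by rw [hz]; exact v.A.one_mem)
  have hinj : ∀ z z' : AlgebraicClosure ℚ_[l], z ^ M = 1 → z' ^ M = 1 → v.r z = v.r z' →
      z = z' := by
    intro z z' hz hz' hr
    by_contra hne
    have hz'0 : z' ≠ 0 := by
      rintro rfl
      rw [zero_pow (by omega)] at hz'
      exact zero_ne_one hz'
    set w := z * z' ^ (M - 1) with hw
    have hwM : w ^ M = 1 := by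
      rw [hw, mul_pow, hz, one_mul, ← pow_mul, mul_comm, pow_mul, hz', one_pow]
    have hMM : M - 1 + 1 = M := by omega
    have hw1 : w ≠ 1 := by
      intro h1
      apply hne
      have h2 : w * z' = z := by
        rw [hw, mul_assoc, ← pow_succ, hMM, hz', mul_one]
      rw [← h2, h1, one_mul]
    have hrw : v.r w = 1 := by
      rw [hw, v.r_mul (hA z hz) (v.A.pow_mem (hA z' hz') _), v.r_pow (hA z' hz'), hr, ← pow_succ',
        hMM, ← v.r_pow (hA z' hz'), hz', v.r_one]
    have hwA := hA w hwM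
    have hsum : ∑ i ∈ Finset.range M, w ^ i = 0 := by
      have h1 := geom_sum_mul w M
      rw [hwM, sub_self] at h1
      exact (mul_eq_zero.1 h1).resolve_right (sub_ne_zero.2 hw1)
    have hrs : ∀ n : ℕ, (∑ i ∈ Finset.range n, w ^ i) ∈ v.A ∧
        v.r (∑ i ∈ Finset.range n, w ^ i) = n := by
      intro n
      induction n with
      | zero => simp [v.A.zero_mem]
      | succ n ih =>
        rw [Finset.sum_range_succ]
        refine ⟨v.A.add_mem ih.1 (v.A.pow_mem hwA _), ?_⟩
        rw [v.r_add ih.1 (v.A.pow_mem hwA _), ih.2, v.r_pow hwA, hrw, one_pow]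
        push_cast
        rfl
    have h2 := (hrs M).2
    rw [hsum, v.r_zero] at h2
    have h3 : ((M : ℕ) : AlgebraicClosure (ZMod l)) = 0 := h2.symm
    have : CharP (AlgebraicClosure (ZMod l)) l := inferInstance
    rw [CharP.cast_eq_zero_iff (AlgebraicClosure (ZMod l)) l M] at h3
    have h4 : Nat.gcd M l = l := Nat.gcd_eq_right h3
    rw [hMl] at h4
    exact (Fact.out : l.Prime).one_lt.ne h4
  have : NeZero ((M : ℕ) : AlgebraicClosure ℚ_[l]) := ⟨by
    have : M ≠ 0 := by omega
    exact_mod_cast this⟩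
  obtain ⟨ζ, hζ⟩ := HasEnoughRootsOfUnity.exists_primitiveRoot (AlgebraicClosure ℚ_[l]) M
  obtain ⟨i, hi⟩ := frob_pow l s (v.r ζ)
  have hζM := hζ.pow_eq_one
  have key : τ ζ = ζ ^ l ^ i := by
    refine hinj _ _ (by rw [← map_pow, hζM, map_one]) (by rw [← pow_mul, mul_comm, pow_mul, hζM,
      one_pow]) ?_
    rw [(hs ζ).2, hi, v.r_pow (hA ζ hζM)]
  refine ⟨i, fun z hz => ?_⟩
  have : NeZero M := ⟨by omega⟩
  obtain ⟨a, -, rfl⟩ := hζ.eq_pow_of_pow_eq_one hz
  rw [map_pow, key, ← pow_mul, ← pow_mul, mul_comm]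

end Pool.Agent.W202.KE
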